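import Pool.Agent.H796R3.TC.Stmts
import Pool.Agent.H685R2.DIM.Ramsey

set_option autoImplicit false

/-!
# The Ramsey property of `(ℚ; ≤)`
-/

namespace Pool.Agent.H45R3.TC

open FirstOrder FirstOrder.Language Pool.Agent.H796R3.TC

theorem taskA : TaskA := by
  classical
  let _ : FirstOrder.Language.order.Structure ℚ := FirstOrder.Language.orderStructure ℚ
  show RamseyProp FirstOrder.Language.order ℚ
  intro A B _ _ _ _ _ hB
  obtain ⟨ψ⟩ := hB
  haveI : Fintype A := Fintype.ofFinite A
  haveI : Fintype B := Fintype.ofFinite B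
  letI : LinearOrder B := LinearOrder.lift' (fun b => ψ b) ψ.injective
  obtain ⟨N, hN⟩ := Pool.Agent.H685R2.DIM.ramsey_gen Bool (Fintype.card A) (Fintype.card B)
  letI sN : FirstOrder.Language.order.Structure (Fin N) :=
    FirstOrder.Language.orderStructure (Fin N)
  refine ⟨Fin N, sN, inferInstance, ⟨?_⟩, ?_⟩
  · refine { toFun := fun i => ((i : ℕ) : ℚ), inj' := ?_, map_fun' := ?_, map_rel' := ?_ }
    · intro i j h
      have h' : ((i : ℕ) : ℚ) = ((j : ℕ) : ℚ) := h
      exact Fin.ext (by exact_mod_cast h')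
    · intro n f; exact isEmptyElim f
    · intro n r x
      cases r
      show (((x 0 : Fin N) : ℕ) : ℚ) ≤ (((x 1 : Fin N) : ℕ) : ℚ) ↔ x 0 ≤ x 1
      rw [Nat.cast_le]; rfl
  · intro χ
    obtain ⟨T, hTS, hTc, k, hk⟩ := hN (Finset.range N)
      (fun l => χ {i : Fin N | (i : ℕ) ∈ l}) (by simp)
    have hcard : Fintype.card B = T.card := hTc.symm
    let e : B ≃o Fin T.card :=
      (Fintype.orderIsoFinOfCardEq B hcard).symm
    let g0 : B → ℕ := fun b => T.orderEmbOfFin rfl (e b)
    have hg0T : ∀ b, g0 b ∈ T := fun b => Finset.orderEmbOfFin_mem _ _ _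
    have hg0 : ∀ b, g0 b < N := fun b => Finset.mem_range.1 (hTS (hg0T b))
    have hmono : ∀ b c : B, g0 b ≤ g0 c ↔ b ≤ c := by
      intro b c
      simp only [g0, OrderEmbedding.le_iff_le, OrderIso.le_iff_le]
    have hBle : ∀ b c : B, b ≤ c ↔ ψ b ≤ ψ c := fun b c => Iff.rfl
    let g : B ↪[FirstOrder.Language.order] Fin N :=
      { toFun := fun b => ⟨g0 b, hg0 b⟩
        inj' := by
          intro b c h
          have h' : g0 b = g0 c := congrArg Fin.val h
          exact le_antisymm ((hmono b c).1 h'.le) ((hmono c b).1 h'.ge)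
        map_fun' := by intro n f; exact isEmptyElim f
        map_rel' := by
          intro n r x
          rw [← ψ.map_rel r x]
          cases r
          show (⟨g0 (x 0), hg0 (x 0)⟩ : Fin N) ≤ ⟨g0 (x 1), hg0 (x 1)⟩ ↔ ψ (x 0) ≤ ψ (x 1)
          rw [← hBle, ← hmono]; rfl }
    refine ⟨g, ?_⟩
    have key : ∀ f : A ↪[FirstOrder.Language.order] B, χ (Set.range (g.comp f)) = k := by
      intro f
      set s : Finset ℕ := Finset.univ.image (fun a : A => g0 (f a)) with hs
      have hinj : Function.Injective (fun a : A => g0 (f a)) := by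
        intro a a' h
        have h1 : g (f a) = g (f a') := Fin.ext h
        exact f.injective (g.injective h1)
      have hsc : s.card = Fintype.card A := by
        rw [hs, Finset.card_image_of_injective _ hinj, Finset.card_univ]
      have h1 := hk (s.sort (· ≤ ·)) (by rw [Finset.length_sort, hsc])
        (Finset.sortedLT_sort s).pairwise (by
          intro x hx
          rw [Finset.mem_sort] at hx
          obtain ⟨a, -, rfl⟩ := Finset.mem_image.1 hx
          exact hg0T _)
      rw [← h1]
      congr 1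
      ext i
      simp only [Set.mem_range, Set.mem_setOf_eq, Finset.mem_sort, hs, Finset.mem_image,
        Finset.mem_univ, true_and]
      constructor
      · rintro ⟨a, rfl⟩; exact ⟨a, rfl⟩
      · rintro ⟨a, ha⟩; exact ⟨a, Fin.ext ha⟩
    intro f f'
    rw [key f, key f']

end Pool.Agent.H45R3.TC
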